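import Mathlib
import Pool.Agent.TH712.HG.SPart

/-!
# MP_2155e3_nt: the S-integral weak Hall conjecture for pairs of short sums of units

Let `T` be a finite set of primes, `r` a number, `Γ` a finitely generated group of rational numbers
(for instance all `T`-units), and `ε > 0`. There is `K` such that for every subset `S` of `T`,
every `S`-unit integer `a`, every nonzero integer `D` and every `S`-primitive pair `(x, y)` of
integers with `y ^ 2 = x ^ 3 + a D` which are sums of `r` elements of `Γ` with integral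
coefficients of absolute value at most `M`,

  `max (|x| ^ (1 / 2), |y| ^ (1 / 3)) ≤ (K M) ^ K |D| ^ (1 + ε)`.

The `S`-unit `a` is arbitrary: what is bounded from below is the part of `y ^ 2 - x ^ 3` prime to
`S`. The proof carries out the argument of Davenport with the Wronskian for the integers themselves
at every place of `S` (the `S`-adic subspace theorem with moving coefficients, in an ultrapower,
`Pool.Agent.TH551.HA`), and multiplies the resulting inequalities for the places of `S` and the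
infinite place.
-/

set_option autoImplicit false

namespace Pool.Agent.Results.MP_2155e3_nt.SparsePairs

open Pool.Agent.TH712.HG Pool.Agent.TH551.HA

theorem result (T : Finset ℕ) (r : ℕ) (Γ : Subgroup ℚˣ) (hΓ : Γ.FG) (ε : ℝ) (hε : 0 < ε) :
    ∃ K : ℝ, 0 < K ∧ ∀ M : ℝ, 1 ≤ M → ∀ S ⊆ T, (∀ p ∈ S, p.Prime) →
      ∀ (u : Fin r → Γ) (α γ : Fin r → ℤ), (∀ j, |(α j : ℝ)| ≤ M) → (∀ j, |(γ j : ℝ)| ≤ M) →
      ∀ x y a D : ℤ, (x : ℚ) = ∑ j, ((u j : ℚˣ) : ℚ) * α j →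
      (y : ℚ) = ∑ j, ((u j : ℚˣ) : ℚ) * γ j → D ≠ 0 → a ≠ 0 → a.natAbs.primeFactors ⊆ S →
      (∀ p ∈ S, ¬ ((p : ℤ) ^ 6 ∣ x ^ 3 ∧ (p : ℤ) ^ 6 ∣ y ^ 2)) → y ^ 2 = x ^ 3 + a * D →
      max (|(x : ℝ)| ^ ((1 : ℝ) / 2)) (|(y : ℝ)| ^ ((1 : ℝ) / 3)) ≤
        (K * M) ^ K * |(D : ℝ)| ^ (1 + ε) := by
  classical
  have h0 : ∀ S : Finset ℕ, ∃ C : ℝ, (∀ p ∈ S, p.Prime) → ∀ M : ℝ, 1 ≤ M →
      ∀ (u : Fin r → Γ) (a c : Fin r → ℤ), (∀ j, |(a j : ℝ)| ≤ M) →
      (∀ j, |(c j : ℝ)| ≤ M) → ∀ x y e D : ℤ, (x : ℚ) = ∑ j, ((u j : ℚˣ) : ℚ) * a j →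
      (y : ℚ) = ∑ j, ((u j : ℚˣ) : ℚ) * c j → D ≠ 0 → e ≠ 0 → e.natAbs.primeFactors ⊆ S →
      (∀ p ∈ S, ¬ ((p : ℤ) ^ 6 ∣ x ^ 3 ∧ (p : ℤ) ^ 6 ∣ y ^ 2)) → y ^ 2 = x ^ 3 + e * D →
      Real.log (max (|(x : ℝ)| ^ 3) (|(y : ℝ)| ^ 2)) / 6 ≤
        C * (1 + Real.log M) + (1 + ε) * Real.log |(D : ℝ)| := by
    intro S
    by_cases hS : ∀ p ∈ S, p.Prime
    · obtain ⟨C, hC⟩ := hallS ncF csF hbF fwF S hS r Γ hΓ ε hε
      exact ⟨C, fun _ => hC⟩
    · exact ⟨0, fun h => absurd h hS⟩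
  choose C hC using h0
  obtain ⟨C0, hC0⟩ : ∃ C0 : ℝ, C0 = ∑ S ∈ T.powerset, |C S| := ⟨_, rfl⟩
  have hC00 : 0 ≤ C0 := by rw [hC0]; exact Finset.sum_nonneg fun _ _ => abs_nonneg _
  refine ⟨C0 + Real.exp 1, by positivity, ?_⟩
  intro M hM S hST hS u α γ hα hγ x y a D hx hy hD ha haS hprim hxy
  have h := hC S hS M hM u α γ hα hγ x y a D hx hy hD ha haS hprim hxy
  set K : ℝ := C0 + Real.exp 1 with hK
  set Z : ℝ := max (|(x : ℝ)| ^ 3) (|(y : ℝ)| ^ 2) with hZ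
  have hne : y ^ 2 ≠ x ^ 3 := by
    intro h1
    rw [h1] at hxy
    exact mul_ne_zero ha hD (by linarith)
  have hZ1 : 1 ≤ Z := one_le_size (by norm_num) (by norm_num) hne
  have hZ0 : 0 < Z := by linarith
  have hD1 : 1 ≤ |(D : ℝ)| := by exact_mod_cast Int.one_le_abs hD
  have hD0 : 0 < |(D : ℝ)| := by linarith
  have hCS : C S ≤ C0 := by
    refine (le_abs_self _).trans ?_
    rw [hC0]
    exact Finset.single_le_sum (f := fun S => |C S|) (fun _ _ => abs_nonneg _)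
      (Finset.mem_powerset.2 hST)
  have he1 : (1 : ℝ) < Real.exp 1 := by
    have := Real.add_one_lt_exp (show (1 : ℝ) ≠ 0 by norm_num)
    linarith
  have hKe : Real.exp 1 ≤ K := by rw [hK]; linarith
  have hK0 : 0 < K := by linarith
  have hKM : 0 < K * M := by positivity
  have hlM : 0 ≤ 1 + Real.log M := by linarith [Real.log_nonneg hM]
  have hlogKM : 1 + Real.log M ≤ Real.log (K * M) := by
    rw [Real.log_mul (by linarith) (by linarith)]
    have h1 : 1 ≤ Real.log K := by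
      rw [← Real.log_exp 1]
      exact Real.log_le_log (Real.exp_pos _) hKe
    linarith
  have h1 : C S * (1 + Real.log M) ≤ K * Real.log (K * M) := by
    calc C S * (1 + Real.log M) ≤ K * (1 + Real.log M) :=
          mul_le_mul_of_nonneg_right (by rw [hK]; linarith) hlM
      _ ≤ K * Real.log (K * M) := mul_le_mul_of_nonneg_left hlogKM hK0.le
  have h2 : Z ^ ((1 : ℝ) / 6) ≤ (K * M) ^ K * |(D : ℝ)| ^ (1 + ε) := by
    rw [Real.rpow_def_of_pos hZ0, Real.rpow_def_of_pos hKM, Real.rpow_def_of_pos hD0,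
      ← Real.exp_add]
    refine Real.exp_le_exp.2 ?_
    linarith
  refine max_le (le_trans ?_ h2) (le_trans ?_ h2)
  · have h3 : |(x : ℝ)| ^ ((1 : ℝ) / 2) = (|(x : ℝ)| ^ 3) ^ ((1 : ℝ) / 6) := by
      rw [← Real.rpow_natCast, ← Real.rpow_mul (abs_nonneg _)]
      norm_num
    rw [h3]
    exact Real.rpow_le_rpow (by positivity) (le_max_left _ _) (by norm_num)
  · have h3 : |(y : ℝ)| ^ ((1 : ℝ) / 3) = (|(y : ℝ)| ^ 2) ^ ((1 : ℝ) / 6) := by
      rw [← Real.rpow_natCast, ← Real.rpow_mul (abs_nonneg _)]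
      norm_num
    rw [h3]
    exact Real.rpow_le_rpow (by positivity) (le_max_right _ _) (by norm_num)

end Pool.Agent.Results.MP_2155e3_nt.SparsePairs
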